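import Pool.Agent.H365PP.Final

set_option autoImplicit false

namespace Pool.Agent.Results.MP_4985b1_co.LinearComplete

/-- The set of interior points of an edge (unordered pair of points) of a geometric graph. -/
def interiorPts (e : Sym2 (ℝ × ℝ)) : Set (ℝ × ℝ) :=
  Sym2.lift ⟨fun a b => openSegment ℝ a b, fun a b => openSegment_symm ℝ a b⟩ e

/-- `P` is in general position: no three points on a line. -/
def GeneralPosition (P : Finset (ℝ × ℝ)) : Prop :=
  ∀ a ∈ P, ∀ b ∈ P, ∀ c ∈ P, a ≠ b → b ≠ c → a ≠ c → ¬ Collinear ℝ ({a, b, c} : Set (ℝ × ℝ))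

/-- The edges of the complete geometric graph on `P`. -/
def edges (P : Finset (ℝ × ℝ)) : Set (Sym2 (ℝ × ℝ)) :=
  {e | ∃ a ∈ P, ∃ b ∈ P, a ≠ b ∧ e = s(a, b)}

/-- Every two edges of the set `F` cross: they have a common interior point. -/
def PairwiseCrossing (F : Finset (Sym2 (ℝ × ℝ))) : Prop :=
  ∀ e ∈ F, ∀ f ∈ F, e ≠ f → (interiorPts e ∩ interiorPts f).Nonempty

/-- Q1, positive answer: there is a constant `c > 0` such that every complete geometric graph on `r ≥ 2`
vertices contains at least `c r` pairwise crossing edges. -/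
theorem result : ∃ c : ℝ, 0 < c ∧ ∀ r : ℕ, 2 ≤ r → ∀ P : Finset (ℝ × ℝ), P.card = r →
    GeneralPosition P →
    ∃ F : Finset (Sym2 (ℝ × ℝ)), (∀ e ∈ F, e ∈ edges P) ∧ PairwiseCrossing F ∧ c * r ≤ F.card := by
  classical
  obtain ⟨c, hc, h⟩ := Pool.Agent.H365PP.q1
  refine ⟨c, hc, ?_⟩
  intro r hr P hP hG
  obtain ⟨k, a, b, hk, ha, hb, hne, hab⟩ := h r hr P hP hG
  refine ⟨Finset.univ.image (fun i => s(a i, b i)), ?_, ?_, ?_⟩
  · intro e he
    obtain ⟨i, _, rfl⟩ := Finset.mem_image.1 he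
    exact ⟨a i, ha i, b i, hb i, hne i i, rfl⟩
  · intro e he f hf hef
    obtain ⟨i, _, rfl⟩ := Finset.mem_image.1 he
    obtain ⟨j, _, rfl⟩ := Finset.mem_image.1 hf
    have hij : i ≠ j := fun h => hef (by rw [h])
    exact (hab i j hij).2.2
  · rw [Finset.card_image_of_injective]
    · simpa using hk
    · intro i j hij
      by_contra hne'
      simp only [Sym2.eq_iff] at hij
      rcases hij with ⟨h1, _⟩ | ⟨h1, _⟩
      · exact (hab i j hne').1 h1
      · exact hne i j h1

end Pool.Agent.Results.MP_4985b1_co.LinearComplete
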